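import Pool.Agent.BER.Stmts

/-!
# Squad BER, row FRK: the theorem for a subspace
-/

set_option autoImplicit false

namespace Pool.Agent.BER.H39

open Set Filter Topology MeasureTheory
open scoped InnerProductSpace ENNReal
open Pool.Agent.BE01 Pool.Agent.BEL Pool.Agent.BEF Pool.Agent.BEN Pool.Agent.BEH Pool.Agent.BEG

noncomputable section

theorem frk_fin {d : ℕ} {Ω : Set (En d)} (h : Dom Ω) : IsFiniteMeasure (mu Ω) := by
  refine ⟨?_⟩
  rw [mu, Measure.restrict_apply_univ]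
  exact h.2.1.measure_lt_top

section alg

variable {T : Type} [MeasurableSpace T] {μ : Measure T} {X : Type} [NormedCommRing X]
  [NormedAlgebra ℝ X]

theorem e_pow {W : Wx X (Lp ℝ 2 μ)} (hX : Xok W) (x : X) (n : ℕ) :
    W.e (x ^ n) =ᵐ[μ] fun z => (W.e x z) ^ n := by
  induction n with
  | zero =>
    rw [pow_zero]
    filter_upwards [hX.one] with z hz
    rw [hz, pow_zero]
  | succ n ih =>
    rw [pow_succ]
    filter_upwards [ih, hX.mul (x ^ n) x] with z h1 h2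
    rw [h2, h1, pow_succ]

theorem msy {W : Wx X (Lp ℝ 2 μ)} (hX : Xok W) (x y z : X) :
    ⟪W.e (x * y), W.e z⟫_ℝ = ⟪W.e y, W.e (x * z)⟫_ℝ := by
  rw [L2.inner_def, L2.inner_def]
  refine integral_congr_ae ?_
  filter_upwards [hX.mul x y, hX.mul x z] with t h1 h2
  rw [h1, h2]
  simp only [RCLike.inner_apply, conj_trivial]
  ring

theorem psv {W : Wx X (Lp ℝ 2 μ)} (hX : Xok W) (p : ℕ) (x : X) (hx : x ≠ 0) :
    0 < ⟪W.e (x ^ (2 * p + 1)), W.e x⟫_ℝ := by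
  have h1 : ⟪W.e (x ^ (2 * p + 1)), W.e x⟫_ℝ = ∫ z, (W.e x z) ^ (2 * (p + 1)) ∂μ := by
    rw [L2.inner_def]
    refine integral_congr_ae ?_
    filter_upwards [e_pow hX x (2 * p + 1)] with t ht
    rw [ht]
    simp only [RCLike.inner_apply, conj_trivial]
    ring
  have h0 : 0 ≤ fun z => (W.e x z) ^ (2 * (p + 1)) := fun z => by
    show (0 : ℝ) ≤ (W.e x z) ^ (2 * (p + 1))
    exact (even_two_mul (p + 1)).pow_nonneg _
  have hint : Integrable (fun z => (W.e x z) ^ (2 * (p + 1))) μ := by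
    have h2 := L2.integrable_inner (𝕜 := ℝ) (W.e (x ^ (2 * p + 1))) (W.e x)
    refine h2.congr ?_
    filter_upwards [e_pow hX x (2 * p + 1)] with t ht
    rw [ht]
    simp only [RCLike.inner_apply, conj_trivial]
    ring
  rw [h1]
  refine lt_of_le_of_ne (integral_nonneg h0) ?_
  intro h3
  have h4 := (integral_eq_zero_iff_of_nonneg h0 hint).1 h3.symm
  apply hx
  apply W.e_inj
  rw [map_zero]
  refine Lp.ext ?_
  filter_upwards [h4, Lp.coeFn_zero ℝ 2 μ] with t ht h5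
  rw [h5]
  exact pow_eq_zero_iff (by omega) |>.1 ht

end alg

theorem frk (hWX : WxcStmt) (hSB : SbkStmt) (hFA : FamStmt) (hCR : CriStmt) (hMA : MarStmt) :
    FrkStmt := by
  intro d Ω K p l φ hd hΩ hK hp hφK hφ hl hlow hgap a ha
  haveI := frk_fin hΩ
  obtain ⟨C0, hC0, hW⟩ := hWX d Ω hd hΩ
  obtain ⟨X, i1, i2, W, Z, hX, hWk, hSb⟩ := hW Ω hΩ (subset_refl _)
  obtain ⟨X', i3, i4, W', i, hR⟩ := hSB d Ω X W Z K hX hWk hK
  have hSK : ∀ h ∈ K, W.S h ∈ K := fun h hh =>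
    hK.slv h hh (W.S h) (Z h) (hWk.dom h) (hWk.weak h)
  have e1 : φ = l • W.S φ := (hWk.eig l φ).1 hl
  have hl0 : 0 < l := by
    have h1 : 0 < ⟪φ, φ⟫_ℝ := by
      rw [real_inner_self_eq_norm_sq]
      exact pow_pos (norm_pos_iff.2 hφ) 2
    have h2 : ⟪φ, φ⟫_ℝ = l * ‖Z φ‖ ^ 2 := by
      rw [hWk.nrm φ]
      nth_rewrite 2 [e1]
      rw [real_inner_smul_right]
    rw [h2] at h1
    by_contra hcon
    push Not at hcon
    have h3 : l * ‖Z φ‖ ^ 2 ≤ 0 := mul_nonpos_of_nonpos_of_nonneg hcon (sq_nonneg _)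
    linarith
  have hω : 0 < √l := Real.sqrt_pos.2 hl0
  have hsq : √l ^ 2 = l := Real.sq_sqrt hl0.le
  obtain ⟨m, φ', hFam, hF2, hF3⟩ :=
    hFA (En d) (mu Ω) d C0 (√l) X X' W W' i K hd hX hSb hWk.comp hω hK.closed hSK hR
  have hm0 : ∀ n : ℕ, Odd n → (∀ u ∈ K, IsEig Ω ((n : ℝ) ^ 2 * l) u → u = 0) → m n = 0 := by
    intro n hn h
    refine hF2 n hn fun u huK hu => h u huK ?_
    rw [hWk.eig]
    rw [hsq] at hu
    exact hu
  have hlow' : ∀ n, 3 ≤ n → n ≤ 2 * p + 1 → m n = 0 := by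
    intro n h3 hn
    by_cases ho : Odd n
    · exact hm0 n ho (hlow n ho h3 hn)
    · exact hFam.evn n ho
  have hGap : Gap m p := by
    intro J
    obtain ⟨M, hJ, hM⟩ := hgap J
    refine ⟨M, hJ, fun n h1 h2 => ?_⟩
    by_cases ho : Odd n
    · exact hm0 n ho (hM n ho h1 h2)
    · exact hFam.evn n ho
  have hm1 : 1 ≤ m 1 := hF3 ⟨φ, hφK, hφ, by rw [hsq]; exact e1⟩
  have hmsy : Msy W' := by
    intro x y z
    have h1 : i (x * y) = i x * i y := map_mul i x y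
    have h2 : i (x * z) = i x * i z := map_mul i x z
    rw [← hR.e, ← hR.e, ← hR.e, ← hR.e, h1, h2]
    exact msy hX (i x) (i y) (i z)
  have hpos : ∀ x : X', x ≠ 0 → 0 < ⟪W'.e (x ^ (2 * p + 1)), W'.e x⟫_ℝ := by
    intro x hx
    have h1 : i (x ^ (2 * p + 1)) = i x ^ (2 * p + 1) := map_pow i x _
    rw [← hR.e, ← hR.e, h1]
    refine psv hX p (i x) ?_
    intro h0
    apply hx
    rw [← norm_eq_zero, ← hR.nrm, h0, norm_zero]
  obtain ⟨χ, hχ⟩ := hCR X' (Lp ℝ 2 (mu Ω)) W' p (√l) m φ' hp hFam hmsy hpos hm1 hlow'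
  exact hMA d Ω p C0 X X' W W' i K Z (√l) m φ' χ hd hΩ hp hC0 hX hWk hSb hR hω hFam hGap hχ a ha

end

end Pool.Agent.BER.H39
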